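import Pool.Agent.U349.EV.SetC
import Pool.Agent.Helper791_Cyc.E2

/-!
# Linear independence of the ordinates and the extreme values of a prime sum

Let

`D(x) = (8/3) √x - ∑_n Λ(n) n^(-1/2) min(n/x, x/n)`,

a smoothed error term in the count of the prime powers near `x`, let `Γ⁺` be the set of the positive ordinates of the
zeros of `ζ` on the critical line, `m_γ` the multiplicities, `a_γ = 4 m_γ / (1 + γ²)`. We prove:

* the Riemann hypothesis holds if and only if `D` is bounded above, if and only if `limsup D = ∑ a_γ`;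
* under the Riemann hypothesis every combination `∑ w_j D(c_j x)` of dilates has
  `limsup ≤ ∑_γ a_γ |∑_j w_j c_j^{iγ}|`, the total amplitude of its oscillations;
* the Riemann hypothesis holds and `Γ⁺` is linearly independent over `ℚ` if and only if there is equality for all
  these combinations;
* one combination suffices: for all real `c > 1` outside a countable set, the Riemann hypothesis holds and `Γ⁺` is
  linearly independent over `ℚ` if and only if

  `limsup |D(x) + 2 D(c x)| = ∑_γ a_γ |1 + 2 c^{iγ}|`.

So a single extreme value of an explicit sum over primes decides whether there is any linear relation between the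
ordinates; if there is one, the error term never gets near to its total amplitude.

Proof. Under the Riemann hypothesis `D(x) = ∑_γ a_γ cos(γ log x) + o(1)` (explicit formula,
`Pool.Agent.U544.LI`). In `D(x) + 2 D(c x)` the ordinate `γ` has the phase `arg (1 + 2 c^{iγ})`. Kronecker's theorem
gives equality in the case of linear independence. A relation `∑ n_γ γ = 0` forces `∏ ((1 + 2 c^{iγ}) / |1 + 2 c^{iγ}|)^{n_γ} = ± 1`
if there is equality; as a function of `log c` this is a relation between entire functions which fails at the common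
zero-free points of all but one factor, so it holds for countably many `c` only. If `|D(x) + 2 D(c x)|` is bounded, then
so is `D`, and the Riemann hypothesis follows by Landau's theorem.
-/

set_option autoImplicit false

open Filter Topology

namespace Pool.Agent.Results.MP_0ec205_nt.ExtremeValues

/-- `D(x) = (8/3) √x - ∑_n Λ(n) n^(-1/2) min(n/x, x/n)` -/
noncomputable def D (x : ℝ) : ℝ :=
  8 / 3 * √x - ∑' n : ℕ, ArithmeticFunction.vonMangoldt n / √n * min (n / x) (x / n)

/-- `Γ⁺`, the set of the positive ordinates of the zeros on the critical line -/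
def Gam : Type := {g : ℝ // 0 < g ∧ riemannZeta (1 / 2 + g * Complex.I) = 0}

/-- `a_γ = 4 m_γ / (1 + γ²)` with the multiplicity `m_γ` of `1/2 + iγ` -/
noncomputable def a (g : Gam) : ℝ :=
  4 * analyticOrderNatAt riemannZeta (1 / 2 + g.1 * Complex.I) / (1 + g.1 ^ 2)

/-- the total amplitude `∑_γ a_γ |∑_j w_j c_j^{iγ}|` -/
noncomputable def V {m : ℕ} (w c : Fin m → ℝ) : ℝ :=
  ∑' g : Gam, a g * ‖∑ j, (w j : ℂ) * (c j : ℂ) ^ (g.1 * Complex.I)‖

/-- `limsup_{x → ∞} W(x) = v` -/
def LimsupIs (W : ℝ → ℝ) (v : ℝ) : Prop :=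
  (∀ ε : ℝ, 0 < ε → ∀ᶠ x in atTop, W x < v + ε) ∧ (∀ ε : ℝ, 0 < ε → ∃ᶠ x in atTop, v - ε < W x)

open Pool.Agent.U544.LI in
lemma zeta_fun : DirichletCharacter.LFunction (1 : DirichletCharacter ℂ 1) = riemannZeta :=
  DirichletCharacter.LFunction_modOne_eq

open Pool.Agent.U544.LI in
lemma ff_zeta (z : ℂ) (hz : z ≠ 1 / 2) : ff 1 z = (z - 1 / 2) * riemannZeta (1 / 2 + z) := by
  classical
  have h1 : (1 / 2 + z : ℂ) ≠ 1 := fun h => hz (by linear_combination h)
  have h2 : ∏ χ : DirichletCharacter ℂ 1, DirichletCharacter.LFunction χ (1 / 2 + z) =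
      DirichletCharacter.LFunction (1 : DirichletCharacter ℂ 1) (1 / 2 + z) := by
    refine Finset.prod_eq_single 1 (fun χ _ hχ => ?_) (fun h => absurd (Finset.mem_univ _) h)
    exact absurd (Subsingleton.elim χ 1) hχ
  unfold ff
  rw [FF_eq h1, h2, zeta_fun]
  ring

open Pool.Agent.U544.LI in
/-- Mathlib's Riemann hypothesis -/
lemma rh_iff : RiemannHypothesis ↔ RHs riemannZeta := by
  constructor
  · intro h ρ h0 h1 hz
    refine h ρ hz ?_ ?_
    · rintro ⟨n, hn⟩
      rw [hn] at h0
      simp at h0
      have : (0:ℝ) ≤ n := Nat.cast_nonneg n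
      linarith
    · rintro rfl
      simp at h1
  · intro h s hs htriv hs1
    have hre1 : s.re < 1 := by
      by_contra hcon
      push Not at hcon
      exact riemannZeta_ne_zero_of_one_le_re hcon hs
    refine h s ?_ hre1 hs
    by_contra hcon
    push Not at hcon
    -- the functional equation
    have h1 : ∀ n : ℕ, (1 - s) ≠ -n := by
      intro n hn
      have := congrArg Complex.re hn
      simp at this
      have hn0 : (0:ℝ) ≤ n := Nat.cast_nonneg n
      linarith
    by_cases hs0 : s = 0
    · rw [hs0, riemannZeta_zero] at hs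
      norm_num at hs
    have h2 : (1 - s) ≠ 1 := by
      intro h3
      exact hs0 (by linear_combination -h3)
    have h4 := riemannZeta_one_sub h1 h2
    rw [sub_sub_cancel, hs] at h4
    have h5 : riemannZeta (1 - s) ≠ 0 := riemannZeta_ne_zero_of_one_le_re (by simp; linarith)
    have h6 : Complex.Gamma (1 - s) ≠ 0 := Complex.Gamma_ne_zero h1
    have h7 : (2 * (Real.pi : ℂ)) ^ (-(1 - s)) ≠ 0 := by
      rw [Complex.cpow_def_of_ne_zero (by simp [Real.pi_ne_zero])]
      exact Complex.exp_ne_zero _
    have h8 : Complex.cos (Real.pi * (1 - s) / 2) = 0 := by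
      have h9 : (2:ℂ) ≠ 0 := two_ne_zero
      have h10 := h4.symm
      simp only [mul_eq_zero, h9, h7, h6, h5, false_or, or_false] at h10
      exact h10
    rw [Complex.cos_eq_zero_iff] at h8
    obtain ⟨k, hk⟩ := h8
    have hpi : (Real.pi : ℂ) ≠ 0 := by exact_mod_cast Real.pi_ne_zero
    have h11 : s = -(2 * k : ℤ) := by
      have h12 : (Real.pi : ℂ) * (1 - s) = Real.pi * (2 * k + 1) := by linear_combination 2 * hk
      have h13 := mul_left_cancel₀ hpi h12
      push_cast
      linear_combination -h13
    have h14 : (0:ℤ) < k := by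
      have h15 := congrArg Complex.re h11
      simp at h15
      rw [h15] at hcon
      have h16 : (0:ℝ) ≤ k := by linarith
      have h17 : (0:ℤ) ≤ k := by exact_mod_cast h16
      rcases h17.lt_or_eq with h18 | h18
      · exact h18
      · exfalso
        apply hs0
        rw [h11, ← h18]
        simp
    apply htriv
    refine ⟨(k - 1).toNat, ?_⟩
    have h19 : (((k - 1).toNat : ℤ)) = k - 1 := by omega
    have h20 : (((k - 1).toNat : ℕ) : ℂ) = ((k - 1 : ℤ) : ℂ) := by
      rw [← Int.cast_natCast, h19]
    rw [h20, h11]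
    push_cast
    ring

open Pool.Agent.U544.LI in
lemma order_half : analyticOrderNatAt riemannZeta (1 / 2) = 0 := by
  have h1 : AnalyticAt ℂ riemannZeta (1 / 2) := by
    have h2 := L_an (1 : DirichletCharacter ℂ 1) (s := 1 / 2) (by norm_num)
    rwa [zeta_fun] at h2
  have h2 : riemannZeta (1 / 2) ≠ 0 := by
    have := Pool.Agent.Helper791.Cyc.zeta_real_ne (1 / 2) (by norm_num) (by norm_num)
    push_cast at this
    exact this
  unfold analyticOrderNatAt
  rw [h1.analyticOrderAt_eq_zero.2 h2]
  rfl

open Pool.Agent.U544.LI Pool.Agent.U349.EV in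
/-- The amplitudes `a_γ` are summable; `D` is bounded above iff RH iff `limsup D = ∑ a_γ`; upper bounds for all
combinations of dilates under RH; RH and linear independence iff equality for all combinations, iff equality for
`|D(x) + 2 D(c x)|`, for every `c > 1` outside a countable set. -/
theorem result :
    Summable a ∧
    (RiemannHypothesis ↔ ∃ C, ∀ᶠ x in atTop, D x ≤ C) ∧
    (RiemannHypothesis ↔ LimsupIs D (∑' g, a g)) ∧
    (RiemannHypothesis → ∀ (m : ℕ) (w c : Fin m → ℝ), (∀ j, 0 < c j) → ∀ ε : ℝ, 0 < ε →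
      ∀ᶠ x in atTop, ∑ j, w j * D (c j * x) < V w c + ε) ∧
    (RiemannHypothesis ∧ LinearIndependent ℚ (fun g : Gam => g.1) ↔
      ∀ (m : ℕ) (w c : Fin m → ℝ), (∀ j, 0 < c j) → LimsupIs (fun x => ∑ j, w j * D (c j * x)) (V w c)) ∧
    ∃ E : Set ℝ, E.Countable ∧ ∀ c : ℝ, 1 < c → c ∉ E →
      (RiemannHypothesis ∧ LinearIndependent ℚ (fun g : Gam => g.1) ↔
        LimsupIs (fun x => |D x + 2 * D (c * x)|) (V ![1, 2] ![1, c])) := by
  have h : LD (ff 1) (Lq 1) 1 := ld_q
  have hD : ∀ x, 0 < x → D x = Dd (Lq 1) 1 (Real.log x) := by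
    intro x hx
    rw [Dd_log h.zero hx, D, mul_one]
    congr 1
    refine tsum_congr fun n => ?_
    rw [Lq_apply, if_pos (Subsingleton.elim _ _)]
    simp
  have hV : ∀ (m : ℕ) (w c : Fin m → ℝ), Vz riemannZeta w c = V w c := by
    intro m w c
    unfold Vz
    rw [order_half, Nat.cast_zero, mul_zero, zero_mul, zero_add]
    rfl
  obtain ⟨c1, c2, c3, c4, c5, E, hE, c6⟩ := crit_ev h ff_zeta hD
  rw [order_half, Nat.cast_zero, mul_zero, zero_add] at c3
  simp only [hV] at c4 c5 c6
  rw [rh_iff]
  exact ⟨c1, c2, c3, c4, c5, E, hE, c6⟩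

end Pool.Agent.Results.MP_0ec205_nt.ExtremeValues
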