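import Pool.Agent.U544.LI.Mom3

/-!
# The moment of order `2N` of the primes sees exactly the relations with at most `2N` ordinates

Let

`D(x) = (8/3) √x - ∑_n Λ(n) n^(-1/2) min(n/x, x/n)`,

a smoothed error term in the count of the prime powers near `x`, and consider the moments

`M(c, m; X) = (1 / log X) ∫_1^X (c + D(x))^m dx/x`.

Let `Γ⁺` be the set of the positive ordinates of the zeros of `ζ` on the critical line, `m_γ` the multiplicities and
`b_γ = 2 m_γ / (1 + γ²)`. A signed `k`-tuple is a choice of `k` ordinates `γ_1, …, γ_k ∈ Γ⁺` (repetitions allowed) and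
of `k` signs; its value is `± γ_1 ± … ± γ_k`, its weight is `b_{γ_1} ⋯ b_{γ_k}`, and it cancels if every ordinate occurs
in it as often with the sign `+` as with the sign `-`. Let `A_k` be the sum of the weights of the signed `k`-tuples with
value `0`, and `V_k` the sum of the weights of those which cancel (both converge; `V_k` is the `k`-th moment of
`∑_γ 2 b_γ cos θ_γ` for independent uniform phases `θ_γ`, the value of `A_k` for linearly independent ordinates).

* `V_k ≤ A_k`, with equality if and only if there is no non-trivial relation `± γ_1 ± … ± γ_k = 0`; and `Γ⁺` is linearly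
  independent over `ℚ` if and only if this holds for every `k`.
* Under the Riemann hypothesis, and with no assumption on the ordinates, `M(c, m; X)` tends to
  `∑_{k ≤ m} binom(m, k) c^(m-k) A_k` for all `c` and `m`; so the moment of order `m` of `D` itself tends to `A_m`.
* Unconditionally, for all `N ≥ 1` and `c ≥ 0`: the Riemann hypothesis holds if and only if `M(c, 2N; X)` is bounded, and
  `limsup M(c, 2N; X) ≥ ∑_{k ≤ 2N} binom(2N, k) c^(2N-k) A_k`.
* Unconditionally, for all `N ≥ 1` and `c > 0`: `limsup M(c, 2N; X) ≤ ∑_{k ≤ 2N} binom(2N, k) c^(2N-k) V_k` if and only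
  if the Riemann hypothesis holds and there is no non-trivial relation `± γ_1 ± … ± γ_k = 0` with `k ≤ 2N`.
* Unconditionally, for all `N ≥ 1`: `limsup M(0, 2N; X) ≤ V_{2N}` if and only if the Riemann hypothesis holds and
  there is no non-trivial relation `± γ_1 ± … ± γ_k = 0` with `k ≤ 2N` even.

So the moments grade the question by the length of the relations: each moment of even order sees the Riemann
hypothesis and exactly the relations up to its order.

Proof. The kernel `min(n/x, x/n)` is chosen in such a way that in the explicit formula for `D` all the residues which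
matter are positive: under RH, `D(x) = ∑_γ 2 b_γ cos(γ log x) + o(1)`. The `k`-th power of this absolutely convergent
sum is the sum of `b_{γ_1} ⋯ b_{γ_k} cos((± γ_1 ± … ± γ_k) u)` over the signed `k`-tuples, `u = log x`. If an even moment
of `c + D` is bounded, then the Laplace transform of `max(D, 0)` converges for `Re z > 0`, and the positivity of the
residues and Landau's theorem exclude the zeros on the right (`Pool.Agent.U544.LI`).
-/

set_option autoImplicit false

open Filter Topology
open scoped Nat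

namespace Pool.Agent.Results.MP_0ec205_nt.FiniteMoments

/-- `D(x) = (8/3) √x - ∑_n Λ(n) n^(-1/2) min(n/x, x/n)` -/
noncomputable def D (x : ℝ) : ℝ :=
  8 / 3 * √x - ∑' n : ℕ, ArithmeticFunction.vonMangoldt n / √n * min (n / x) (x / n)

/-- `(1 / log X) ∫_1^X (c + D(x))^m dx/x` -/
noncomputable def Moment (c : ℝ) (m : ℕ) (X : ℝ) : ℝ := (∫ x in (1:ℝ)..X, (c + D x) ^ m / x) / Real.log X

/-- `Γ⁺`, the set of the positive ordinates of the zeros on the critical line -/
def Gam : Type := {g : ℝ // 0 < g ∧ riemannZeta (1 / 2 + g * Complex.I) = 0}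

/-- `b_γ = 2 m_γ / (1 + γ²)` with the multiplicity `m_γ` of `1/2 + iγ` -/
noncomputable def b (g : Gam) : ℝ :=
  2 * analyticOrderNatAt riemannZeta (1 / 2 + g.1 * Complex.I) / (1 + g.1 ^ 2)

/-- the value `± γ_1 ± … ± γ_k` of a signed `k`-tuple -/
noncomputable def value {k : ℕ} (t : Fin k → Gam × ℤˣ) : ℝ := ∑ j, (((t j).2 : ℤ) : ℝ) * (t j).1.1

open Classical in
/-- every ordinate occurs as often with the sign `+` as with the sign `-` -/
def Cancels {k : ℕ} (t : Fin k → Gam × ℤˣ) : Prop :=
  ∀ g : Gam, ∑ j ∈ Finset.univ.filter (fun j => (t j).1 = g), ((t j).2 : ℤ) = 0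

/-- the weight `b_{γ_1} ⋯ b_{γ_k}` -/
noncomputable def weight {k : ℕ} (t : Fin k → Gam × ℤˣ) : ℝ := ∏ j, b (t j).1

/-- `A_k`: the sum of the weights of the signed `k`-tuples with value `0` -/
noncomputable def A (k : ℕ) : ℝ := ∑' t : {t : Fin k → Gam × ℤˣ // value t = 0}, weight t.1

/-- `V_k`: the sum of the weights of the signed `k`-tuples which cancel -/
noncomputable def V (k : ℕ) : ℝ := ∑' t : {t : Fin k → Gam × ℤˣ // Cancels t}, weight t.1

/-- there is no non-trivial relation `± γ_1 ± … ± γ_k = 0` -/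
def NoRelation (k : ℕ) : Prop := ∀ t : Fin k → Gam × ℤˣ, value t = 0 → Cancels t

/-- `∑_{k ≤ m} binom(m, k) c^(m-k) M_k` -/
noncomputable def Binom (m : ℕ) (c : ℝ) (M : ℕ → ℝ) : ℝ :=
  ∑ k ∈ Finset.range (m + 1), M k * c ^ (m - k) * (m.choose k : ℝ)

/-- **The moments of the primes and the short relations between the ordinates.** -/
theorem result :
    (∀ k, Summable fun t : Fin k → Gam × ℤˣ => weight t) ∧
    (∀ k, 0 ≤ V k ∧ V k ≤ A k ∧ (A k = V k ↔ NoRelation k)) ∧
    (LinearIndependent ℚ (fun g : Gam => g.1) ↔ ∀ k, NoRelation k) ∧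
    (RiemannHypothesis → ∀ (c : ℝ) (m : ℕ), Tendsto (Moment c m) atTop (𝓝 (Binom m c A))) ∧
    (∀ N : ℕ, 1 ≤ N →
      (∀ c : ℝ, 0 ≤ c →
        (RiemannHypothesis ↔ ∃ C, ∀ᶠ X in atTop, Moment c (2 * N) X ≤ C) ∧
        (∀ ε : ℝ, 0 < ε → ∃ᶠ X in atTop, Binom (2 * N) c A - ε < Moment c (2 * N) X)) ∧
      (∀ c : ℝ, 0 < c →
        (RiemannHypothesis ∧ (∀ k ≤ 2 * N, NoRelation k) ↔
          ∀ ε : ℝ, 0 < ε → ∀ᶠ X in atTop, Moment c (2 * N) X < Binom (2 * N) c V + ε)) ∧
      (RiemannHypothesis ∧ (∀ k ≤ N, NoRelation (2 * k)) ↔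
        ∀ ε : ℝ, 0 < ε → ∀ᶠ X in atTop, Moment 0 (2 * N) X < V (2 * N) + ε)) := by
  classical
  open Pool.Agent.U544.LI in
  have h : LD (ff 1) (Lq 1) 1 := ld_q
  have hD : ∀ x, 0 < x → D x = Dd (Lq 1) 1 (Real.log x) := by
    intro x hx
    rw [Dd_log h.zero hx, D, mul_one]
    congr 1
    refine tsum_congr fun n => ?_
    rw [Lq_apply, if_pos (Subsingleton.elim _ _)]
    simp
  have hfz : ∀ z : ℂ, z ≠ 1 / 2 → (ff 1 z = 0 ↔ riemannZeta (1 / 2 + z) = 0) := by
    intro z hz
    rw [ff_zeta z hz, mul_eq_zero]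
    constructor
    · rintro (h1 | h1)
      · exact absurd (sub_eq_zero.1 h1) hz
      · exact h1
    · intro h1
      exact Or.inr h1
  have hRH : RiemannHypothesis ↔ RHf (ff 1) := by
    rw [rh_iff]
    constructor
    · intro h1 w hw hw2
      rw [abs_lt] at hw2
      have hwh : w ≠ 1 / 2 := by
        rintro rfl
        norm_num at hw2
      have := h1 (1 / 2 + w) (by simp; linarith) (by simp; linarith) ((hfz w hwh).1 hw)
      simp at this
      linarith
    · intro h1 ρ h2 h3 h4
      have hwh : ρ - 1 / 2 ≠ 1 / 2 := by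
        intro h5
        have : ρ = 1 := by linear_combination h5
        rw [this] at h3
        simp at h3
      have := h1 (ρ - 1 / 2) ((hfz _ hwh).2 (by rw [add_sub_cancel]; exact h4)) (by
        rw [abs_lt]
        constructor <;> simp <;> linarith)
      simp at this
      linarith
  have hmu0 : mu (ff 1) 0 = 0 := by
    rw [ord_eq h ff_zeta (by norm_num), add_zero, zeta_ord0]
  let π : Gam ≃ Gs (ff 1) :=
    { toFun := fun g => ⟨g.1, g.2.1, (hfz _ (ne_half _)).2 g.2.2⟩
      invFun := fun g => ⟨g.1, g.2.1, (hfz _ (ne_half _)).1 g.2.2⟩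
      left_inv := fun g => rfl
      right_inv := fun g => rfl }
  have hbw : b = fun g => wt (ff 1) (π g) := by
    funext g
    have e : wt (ff 1) (π g) = (mu (ff 1) ((g.1:ℂ) * Complex.I) : ℝ) * (2 / (1 + g.1 ^ 2)) := rfl
    rw [e, ord_eq h ff_zeta (ne_half _)]
    unfold b
    ring
  have hbp : ∀ g, 0 < b g := fun g => by rw [hbw]; exact wt_pos h _
  have hbs : Summable b := by
    rw [hbw]
    exact (wt_summ h).comp_injective π.injective
  have hbD : ∀ u, DD b (fun g => (π g).1) u = DD (wt (ff 1)) (fun g : Gs (ff 1) => g.1) u := by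
    intro u
    rw [hbw]
    unfold DD
    exact π.tsum_eq (fun g : Gs (ff 1) => 2 * wt (ff 1) g * Real.cos (g.1 * u))
  have hA : A = MM b fun g => (π g).1 := rfl
  have hcan : ∀ {k : ℕ} (t : Fin k → Gam × ℤˣ), Cancels t ↔ fm t = 0 := fun t => (fm_zero_iff t).symm
  have hV : V = VV b := by
    funext k
    unfold V VV
    exact (Equiv.subtypeEquivRight fun t => hcan t).tsum_eq
      (fun t : {t : Fin k → Gam × ℤˣ // fm t = 0} => wp b t.1)
  have hNR : ∀ k, NoRelation k ↔ Ind (fun g => (π g).1) k := fun k =>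
    forall_congr' fun t => imp_congr_right fun _ => hcan t
  obtain ⟨c1, c2⟩ := crit_mom h π b hbp hbs hbD hD
  rw [hmu0, ← hA] at c1
  simp only [hmu0, ← hA, Nat.cast_zero, mul_zero, add_zero, ← hV, true_and] at c1 c2
  refine ⟨fun k => (DD_pow (γ := fun _ => 0) hbp hbs k 0).1, fun k => ?_, ?_, fun hR => c1 (hRH.1 hR), fun N hN =>
    ⟨fun c hc => ?_, fun c hc => ?_, ?_⟩⟩
  · rw [hNR, hV, hA]
    exact ⟨VV_nonneg hbp k, VV_le hbp hbs k⟩
  · simp only [hNR]
    exact linInd_Ind (fun g => (π g).1)
  · obtain ⟨d1, d2, -, -⟩ := c2 c hc N hN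
    rw [hRH]
    exact ⟨d1, d2⟩
  · obtain ⟨-, -, d3, -⟩ := c2 c hc.le N hN
    have := d3 c hc le_rfl
    rw [hRH]
    simp only [true_and] at this
    simp only [hNR]
    exact this
  · obtain ⟨-, -, -, d4⟩ := c2 0 le_rfl N hN
    have := d4 rfl
    rw [hRH]
    refine Iff.trans (and_congr_right fun _ => ?_) this
    simp only [hNR]
    constructor
    · intro h1
      exact h1 N le_rfl
    · intro h1
      exact Ind_even h1

end Pool.Agent.Results.MP_0ec205_nt.FiniteMoments
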