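import Pool.Agent.U544.LI.SetCrit
import Pool.Agent.Helper791_Cyc.E2

/-!
# The exponential moments of the primes are partition functions of the relations between the zeros

Let

`D(x) = (8/3) √x - ∑_n Λ(n) n^(-1/2) min(n/x, x/n)`,

a smoothed error term in the count of the prime powers near `x`, fix any `λ > 0` and look at the logarithmic mean

`M(X) = (1 / log X) ∫_1^X exp (λ D(x)) dx/x`.

Let `Γ⁺` be the set of the positive ordinates of the zeros of `ζ` on the critical line, `m_γ` the multiplicities,
`a_γ = 4 λ m_γ / (1 + γ²)`, `V = ∏_γ I_0(a_γ)` (the product converges, `I_k` are the Bessel functions). We prove: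

* (unconditionally) the Riemann hypothesis holds if and only if `M(X)` is bounded;
* if the Riemann hypothesis holds, then, without any assumption on the ordinates, the limit of `M(X)` exists and is

  `lim M(X) = V · ∑_n ∏_γ I_{|n_γ|}(a_γ) / I_0(a_γ)`,

  where the sum is over all the integral linear relations `∑ n_γ γ = 0` with finitely many `n_γ ≠ 0`; the relation
  `n = 0` contributes `1`, all others contribute positive numbers, and the sum converges;
* (unconditionally) `limsup M(X)` is at least `V` times the sum over any finite set of relations; so always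
  `limsup M(X) ≥ V`, and `limsup M(X) ≥ V (1 + 2 w)` if there is a relation `n ≠ 0` of weight `w` (`n` and `-n`);
* (unconditionally) the Riemann hypothesis holds and `Γ⁺` is linearly independent over `ℚ` if and only if
  `limsup M(X) ≤ V`, that is, if and only if `M(X)` has the smallest possible limes superior.

So every single linear relation between the ordinates leaves a definite trace in the distribution of the primes, and
one exponential moment, for one `λ`, sees all of them. Under the Riemann hypothesis the question asks exactly whether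
`lim M(X) = V`.

Proof. The kernel `min(n/x, x/n)` is chosen in such a way that in the explicit formula
`D(x) = ∑_w 2 x^w / (1 - w²) + O(log x / x)`, `w = ρ - 1/2`, all the residues which matter are positive: under RH it is
`∑_γ 4 m_γ cos(γ log x) / (1 + γ²) + o(1)`. If `M` is bounded, then the Laplace transform of `max(D, 0)` converges for
`Re z > 0`; by the positivity of the residue at a largest real zero and by Landau's theorem so does the one of
`max(-D, 0)`, and there are no zeros on the right. The exponential of a finite cosine sum with frequencies `γ` is the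
sum of the `∏ I_{|n_γ|}(a_γ) e^{i (∑ n_γ γ) u}`; the mean value picks the relations, and the passage to all zeros
is made with the monotone quotients by the products of the `I_0(a_γ)` (`Pool.Agent.U544.LI`).
-/

set_option autoImplicit false

open Filter Topology
open scoped Nat

namespace Pool.Agent.Results.MP_0ec205_nt.SingleMeanValue

/-- `I_k(x) = ∑ (x/2)^(2j+k) / (j! (j+k)!)` -/
noncomputable def Bessel (k : ℕ) (x : ℝ) : ℝ := ∑' j : ℕ, (x / 2) ^ (2 * j + k) / ((j)! * (j + k)!)

/-- `D(x) = (8/3) √x - ∑_n Λ(n) n^(-1/2) min(n/x, x/n)` -/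
noncomputable def D (x : ℝ) : ℝ :=
  8 / 3 * √x - ∑' n : ℕ, ArithmeticFunction.vonMangoldt n / √n * min (n / x) (x / n)

/-- `M(X) = (1 / log X) ∫_1^X exp (λ D(x)) dx/x` -/
noncomputable def M (lam X : ℝ) : ℝ := (∫ x in (1:ℝ)..X, Real.exp (lam * D x) / x) / Real.log X

/-- `Γ⁺`, the set of the positive ordinates of the zeros on the critical line -/
def Gam : Type := {g : ℝ // 0 < g ∧ riemannZeta (1 / 2 + g * Complex.I) = 0}

/-- `a_γ = 4 λ m_γ / (1 + γ²)` with the multiplicity `m_γ` of `1/2 + iγ` -/
noncomputable def a (lam : ℝ) (g : Gam) : ℝ :=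
  4 * lam * analyticOrderNatAt riemannZeta (1 / 2 + g.1 * Complex.I) / (1 + g.1 ^ 2)

/-- `V = ∏_γ I_0(a_γ)` -/
noncomputable def V (lam : ℝ) : ℝ := ∏' g : Gam, Bessel 0 (a lam g)

/-- the integral linear relations `∑ n_γ γ = 0` -/
def Relation : Type := {n : Gam →₀ ℤ // (n.sum fun g k => (k : ℝ) * g.1) = 0}

/-- `∏_γ I_{|n_γ|}(a_γ) / I_0(a_γ)` for a relation `n` (the factors with `n_γ = 0` are `1`) -/
noncomputable def weight (lam : ℝ) (n : Relation) : ℝ :=
  n.1.prod fun g k => Bessel k.natAbs (a lam g) / Bessel 0 (a lam g)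

open Pool.Agent.U544.LI in
lemma zeta_fun : DirichletCharacter.LFunction (1 : DirichletCharacter ℂ 1) = riemannZeta :=
  DirichletCharacter.LFunction_modOne_eq

open Pool.Agent.U544.LI in
lemma ff_zeta (z : ℂ) (hz : z ≠ 1 / 2) : ff 1 z = (z - 1 / 2) * riemannZeta (1 / 2 + z) := by
  classical
  have h1 : (1 / 2 + z : ℂ) ≠ 1 := fun h => hz (by linear_combination h)
  have h2 : ∏ χ : DirichletCharacter ℂ 1, DirichletCharacter.LFunction χ (1 / 2 + z) =
      DirichletCharacter.LFunction (1 : DirichletCharacter ℂ 1) (1 / 2 + z) := by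
    refine Finset.prod_eq_single 1 (fun χ _ hχ => ?_) (fun h => absurd (Finset.mem_univ _) h)
    exact absurd (Subsingleton.elim χ 1) hχ
  unfold ff
  rw [FF_eq h1, h2, zeta_fun]
  ring

open Pool.Agent.U544.LI in
/-- Mathlib's Riemann hypothesis -/
lemma rh_iff : RiemannHypothesis ↔ RHs riemannZeta := by
  constructor
  · intro h ρ h0 h1 hz
    refine h ρ hz ?_ ?_
    · rintro ⟨n, hn⟩
      rw [hn] at h0
      simp at h0
      have : (0:ℝ) ≤ n := Nat.cast_nonneg n
      linarith
    · rintro rfl
      simp at h1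
  · intro h s hs htriv hs1
    have hre1 : s.re < 1 := by
      by_contra hcon
      push Not at hcon
      exact riemannZeta_ne_zero_of_one_le_re hcon hs
    refine h s ?_ hre1 hs
    by_contra hcon
    push Not at hcon
    -- the functional equation
    have h1 : ∀ n : ℕ, (1 - s) ≠ -n := by
      intro n hn
      have := congrArg Complex.re hn
      simp at this
      have hn0 : (0:ℝ) ≤ n := Nat.cast_nonneg n
      linarith
    by_cases hs0 : s = 0
    · rw [hs0, riemannZeta_zero] at hs
      norm_num at hs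
    have h2 : (1 - s) ≠ 1 := by
      intro h3
      exact hs0 (by linear_combination -h3)
    have h4 := riemannZeta_one_sub h1 h2
    rw [sub_sub_cancel, hs] at h4
    have h5 : riemannZeta (1 - s) ≠ 0 := riemannZeta_ne_zero_of_one_le_re (by simp; linarith)
    have h6 : Complex.Gamma (1 - s) ≠ 0 := Complex.Gamma_ne_zero h1
    have h7 : (2 * (Real.pi : ℂ)) ^ (-(1 - s)) ≠ 0 := by
      rw [Complex.cpow_def_of_ne_zero (by simp [Real.pi_ne_zero])]
      exact Complex.exp_ne_zero _
    have h8 : Complex.cos (Real.pi * (1 - s) / 2) = 0 := by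
      have h9 : (2:ℂ) ≠ 0 := two_ne_zero
      have h10 := h4.symm
      simp only [mul_eq_zero, h9, h7, h6, h5, false_or, or_false] at h10
      exact h10
    rw [Complex.cos_eq_zero_iff] at h8
    obtain ⟨k, hk⟩ := h8
    have hpi : (Real.pi : ℂ) ≠ 0 := by exact_mod_cast Real.pi_ne_zero
    have h11 : s = -(2 * k : ℤ) := by
      have h12 : (Real.pi : ℂ) * (1 - s) = Real.pi * (2 * k + 1) := by linear_combination 2 * hk
      have h13 := mul_left_cancel₀ hpi h12
      push_cast
      linear_combination -h13
    have h14 : (0:ℤ) < k := by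
      have h15 := congrArg Complex.re h11
      simp at h15
      rw [h15] at hcon
      have h16 : (0:ℝ) ≤ k := by linarith
      have h17 : (0:ℤ) ≤ k := by exact_mod_cast h16
      rcases h17.lt_or_eq with h18 | h18
      · exact h18
      · exfalso
        apply hs0
        rw [h11, ← h18]
        simp
    apply htriv
    refine ⟨(k - 1).toNat, ?_⟩
    have h19 : (((k - 1).toNat : ℤ)) = k - 1 := by omega
    have h20 : (((k - 1).toNat : ℕ) : ℂ) = ((k - 1 : ℤ) : ℂ) := by
      rw [← Int.cast_natCast, h19]
    rw [h20, h11]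
    push_cast
    ring

open Pool.Agent.U544.LI in
theorem main (lam : ℝ) (hl : 0 < lam) :
    (Multipliable fun g : Gam => Bessel 0 (a lam g)) ∧
    (RiemannHypothesis ↔ ∃ C, ∀ᶠ X in atTop, M lam X ≤ C) ∧
    (RiemannHypothesis → Summable (weight lam) ∧ Tendsto (M lam) atTop (𝓝 (V lam * ∑' n : Relation, weight lam n))) ∧
    (∀ ε : ℝ, 0 < ε → ∃ᶠ X in atTop, V lam - ε < M lam X) ∧
    (RiemannHypothesis ∧ LinearIndependent ℚ (fun g : Gam => g.1) ↔
      ∀ ε : ℝ, 0 < ε → ∀ᶠ X in atTop, M lam X < V lam + ε) := by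
  have h : LD (ff 1) (Lq 1) 1 := ld_q
  have hD : ∀ x, 0 < x → D x = Dd (Lq 1) 1 (Real.log x) := by
    intro x hx
    rw [Dd_log h.zero hx, D, mul_one]
    congr 1
    refine tsum_congr fun n => ?_
    rw [Lq_apply, if_pos (Subsingleton.elim _ _)]
    simp
  have h0 : analyticOrderNatAt riemannZeta (1 / 2) = 0 := by
    have h1 : AnalyticAt ℂ riemannZeta (1 / 2) := by
      have h2 := L_an (1 : DirichletCharacter ℂ 1) (s := 1 / 2) (by norm_num)
      rwa [zeta_fun] at h2
    have h2 : riemannZeta (1 / 2) ≠ 0 := by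
      have := Pool.Agent.Helper791.Cyc.zeta_real_ne (1 / 2) (by norm_num) (by norm_num)
      push_cast at this
      exact this
    unfold analyticOrderNatAt
    rw [h1.analyticOrderAt_eq_zero.2 h2]
    rfl
  have hV : V lam = Real.exp (2 * lam * analyticOrderNatAt riemannZeta (1 / 2)) *
      ∏' g : Ord riemannZeta, Ik 0 (ar riemannZeta lam g) := by
    rw [h0, Nat.cast_zero, mul_zero, Real.exp_zero, one_mul]
    rfl
  obtain ⟨c1, c2, c3, c4, c5⟩ := crit_set h ff_zeta hl hD hV
  rw [rh_iff]
  exact ⟨c1, c2, c3, c4, c5⟩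

lemma bessel_pos (k : ℕ) {x : ℝ} (hx : 0 < x) : 0 < Bessel k x := by
  have h := Pool.Agent.U544.LI.Jk_pos (a := x / 2) (by positivity) k
  rw [Pool.Agent.U544.LI.Jk_Ik, mul_div_cancel₀ _ two_ne_zero] at h
  exact h

lemma a_pos {lam : ℝ} (hl : 0 < lam) (g : Gam) : 0 < a lam g := by
  have h1 : (1 / 2 + (g.1:ℂ) * Complex.I) ≠ 1 := by
    intro h
    have := congrArg Complex.re h
    simp at this
  have h2 : DirichletCharacter.LFunction (1 : DirichletCharacter ℂ 1) (1 / 2 + g.1 * Complex.I) = 0 := by
    rw [zeta_fun]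
    exact g.2.2
  have h3 := (Pool.Agent.U544.LI.ord_pos_iff (1 : DirichletCharacter ℂ 1) h1).2 h2
  rw [zeta_fun] at h3
  have h4 : (0:ℝ) < analyticOrderNatAt riemannZeta (1 / 2 + g.1 * Complex.I) := by
    exact_mod_cast Nat.pos_of_ne_zero h3
  unfold a
  positivity

lemma weight_pos {lam : ℝ} (hl : 0 < lam) (n : Relation) : 0 < weight lam n :=
  Finset.prod_pos fun g _ => div_pos (bessel_pos _ (a_pos hl g)) (bessel_pos _ (a_pos hl g))

/-- **The exponential moments of the primes and the relations between the ordinates.** -/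
theorem result : ∀ lam : ℝ, 0 < lam →
    (Multipliable fun g : Gam => Bessel 0 (a lam g)) ∧
    (RiemannHypothesis ↔ ∃ C, ∀ᶠ X in atTop, M lam X ≤ C) ∧
    (RiemannHypothesis → Summable (weight lam) ∧
      Tendsto (M lam) atTop (𝓝 (V lam * ∑' n : Relation, weight lam n))) ∧
    (∀ s : Finset Relation, ∀ ε : ℝ, 0 < ε → ∃ᶠ X in atTop, V lam * ∑ n ∈ s, weight lam n - ε < M lam X) ∧
    (RiemannHypothesis ∧ LinearIndependent ℚ (fun g : Gam => g.1) ↔
      ∀ ε : ℝ, 0 < ε → ∀ᶠ X in atTop, M lam X < V lam + ε) := by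
  intro lam hl
  obtain ⟨c1, c2, c3, -, c5⟩ := main lam hl
  refine ⟨c1, c2, c3, fun s ε hε => ?_, c5⟩
  by_contra hcon
  rw [Filter.not_frequently] at hcon
  have h1 : ∀ᶠ X in atTop, M lam X ≤ V lam * ∑ n ∈ s, weight lam n - ε := hcon.mono fun X hX => not_lt.1 hX
  obtain ⟨h2, h3⟩ := c3 (c2.2 ⟨_, h1⟩)
  have h4 := le_of_tendsto h3 h1
  have h5 : ∑ n ∈ s, weight lam n ≤ ∑' n : Relation, weight lam n :=
    h2.sum_le_tsum s fun n _ => (weight_pos hl n).le
  have h6 : 0 ≤ V lam := by
    unfold V
    have h7 : ∀ g : Gam, 0 < Bessel 0 (a lam g) := fun g => bessel_pos _ (a_pos hl g)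
    exact ge_of_tendsto' c1.hasProd fun t => Finset.prod_nonneg fun g _ => (h7 g).le
  have h8 := mul_le_mul_of_nonneg_left h5 h6
  linarith

end Pool.Agent.Results.MP_0ec205_nt.SingleMeanValue
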