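import Pool.Agent.U125.UT.FinR
import Pool.Agent.N455.OW.PV
import Pool.Agent.Helper256.KM.Mertens
import Pool.Agent.H370R2.NT

/-!
# No isometry of the line maps almost all ordinates of zeta zeros to ordinates, uniformly

Let `0 < γ_1 ≤ γ_2 ≤ …` be the ordinates of the nontrivial zeros of `ζ`, with multiplicity.  There is
an absolute `κ > 0` such that for all large `N`, for ALL real `c` (which may depend on `N`) and
for every permutation `σ` of `{1, …, N}` the inequality `|γ_{σ n} - (γ_n + c)| ≥ κ min(|c|, 1 / log N)`
(if `c ≠ 0`) holds for at least `κ N` of the indices `n ≤ N`, and so does the inequality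
`|γ_{σ n} - (c - γ_n)| ≥ κ / log N`.  In particular for all large `T` and all isometries `φ` of the
line other than the identity at most `(1 - κ) N(T)` ordinates `x ≤ T` are such that `φ x` is an
ordinate `≤ T`: no difference and no sum of two ordinates occurs for almost all ordinates.
No hypothesis is assumed.

Idea of the proof.  If a permutation matches the `γ`'s with the `γ + c`'s, then the numbers of the
`γ`'s in `(t, t + h]` and in `(t - c, t - c + h]` agree in mean up to a small error, where `h` is a
large constant times the mean spacing.  The difference of the fluctuations is approximated (in mean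
square, up to `O(1)`, by Selberg's method with his density theorem) by the difference of two prime
sums, at `t` and at `t - c`.  These are uncorrelated for `K / log T ≤ |c| ≤ T / 8`, uniformly: the sum
`∑ p ≤ X, sin² (h log p / 2) / p · cos (c log p)` is small.  To see it, the weight
`sin² (h v / 2) / v`, `v = log p`, is interpolated linearly at the integers `k` with
`δ / h ≤ k ≤ log X`; each of the resulting sums over primes with a hat function around `k` is
estimated with the Vinogradov-Korobov bound (as `|c| ≤ exp (A k)`), and the main terms telescope.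
For `|c| > T / 8` the theorem is elementary.  For `η / log N ≤ |c| < K / log N` the permutation is
iterated until `j |c|` is large enough.  For `|c| < η / log N` the iterates `σ^j n`, `j ≤ J`, give
`J + 1` ordinates in an interval of length `h / 2` for many `n`, against the bound for the second
moment of the number of ordinates in `(t, t + h]`.  For the reflections `x ↦ c - x` only `c` near
`γ_N` matters; as the prime sums are even functions, they are compared at `t` and at `t - c` again,
now with the coefficients which belong to two different heights.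
-/

set_option autoImplicit false

open Filter

namespace Pool.Agent.Results.MP_0ec205_nt.UniformIsometries

/-- multiplicity of `s` as a zero of the Riemann zeta function (order of vanishing at `s`) -/
noncomputable def zmult (s : ℂ) : ℕ := analyticOrderNatAt riemannZeta s

/-- the number of nontrivial zeros of `ζ` with ordinate in `(0, t]`, with multiplicity -/
noncomputable def NZ (t : ℝ) : ℕ :=
  ∑ᶠ s ∈ {s : ℂ | riemannZeta s = 0 ∧ 0 < s.re ∧ s.re < 1 ∧ 0 < s.im ∧ s.im ≤ t}, zmult s

/-- for `n ≥ 1`: the `n`-th positive ordinate `γ n` of a nontrivial zero of `ζ`, the ordinates being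
listed in nondecreasing order and repeated according to multiplicity -/
noncomputable def γ (n : ℕ) : ℝ := sInf {t : ℝ | n ≤ NZ t}

/-- the set of the positive ordinates of the nontrivial zeros of `ζ` -/
def Om : Set ℝ := {x | 0 < x ∧ ∃ s : ℂ, riemannZeta s = 0 ∧ 0 < s.re ∧ s.re < 1 ∧ s.im = x}

/-- **Theorem.** There is `κ > 0` such that

* for all large `N`, all real `c` and all permutations `σ` of `{1, …, N}` at least `κ N` of the
  `n ≤ N` satisfy `|γ (σ n) - (γ n + c)| ≥ κ min(|c|, 1 / log N)` (if `c ≠ 0`), and at least `κ N`
  of them satisfy `|γ (σ n) - (c - γ n)| ≥ κ / log N`;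
* for all large `T` and all isometries `φ ≠ id` of the line the number of the ordinates `x ≤ T` for
  which `φ x` is an ordinate `≤ T` as well is at most `(1 - κ) * NZ T`. -/
theorem result : ∃ κ : ℝ, 0 < κ ∧
    (∀ᶠ N : ℕ in atTop, ∀ c : ℝ, ∀ σ : ℕ → ℕ,
      (∀ n ∈ Finset.Icc 1 N, σ n ∈ Finset.Icc 1 N) → Set.InjOn σ (Finset.Icc 1 N) →
      (c ≠ 0 → κ * N ≤ (((Finset.Icc 1 N).filter
        (fun n => κ * min |c| (1 / Real.log N) ≤ |γ (σ n) - (γ n + c)|)).card : ℝ)) ∧
      κ * N ≤ (((Finset.Icc 1 N).filter
        (fun n => κ / Real.log N ≤ |γ (σ n) - (c - γ n)|)).card : ℝ)) ∧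
    (∀ᶠ T : ℝ in atTop, ∀ φ : ℝ → ℝ, Isometry φ → φ ≠ id →
      ({x : ℝ | x ∈ Om ∧ x ≤ T ∧ φ x ∈ Om ∧ φ x ≤ T}.ncard : ℝ) ≤ (1 - κ) * NZ T) := by
  have tw : Pool.Agent.U125.UT.S_TWU := Pool.Agent.U125.UT.twu Pool.Agent.N455.OW.pv
    Pool.Agent.Helper256.KM.mertens_log H370.nt_mertens_upper
  exact Pool.Agent.U125.UT.isometries tw

end Pool.Agent.Results.MP_0ec205_nt.UniformIsometries
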